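import Pool.Agent.Helper7.OV.Goals2

/-!
# Project OV (MP_57df85_nt), packet EXI: the auxiliary triple
-/

set_option autoImplicit false

open Finset

namespace Pool.Agent.Helper93.OV.EXI

open Pool.Agent.Helper7.OV
open scoped Polynomial

/-- the unit series -/
def one : Ser := fun k l => if k = 0 ∧ l = 0 then 1 else 0

theorem co_zero_of_lt {F : P2} {j : ℕ} (h : F.natDegree < j) (i : ℕ) : co F i j = 0 := by
  unfold co
  rw [Polynomial.coeff_eq_zero_of_natDegree_lt h, Polynomial.coeff_zero]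

theorem co_zero_of_lt' {F : P2} {i j : ℕ} (h : (F.coeff j).natDegree < i) : co F i j = 0 :=
  Polynomial.coeff_eq_zero_of_natDegree_lt h

theorem act_box {F : P2} {a b : ℕ} (h : DL a b F) (μ : Ser) (k l : ℤ) :
    act F μ k l = ∑ j ∈ range (b + 1), ∑ i ∈ range (a + 1), (co F i j : ℚ) * μ (k - i) (l - j) := by
  unfold act
  have inner (j : ℕ) : ∑ i ∈ range ((F.coeff j).natDegree + 1), (co F i j : ℚ) * μ (k - i) (l - j) =
      ∑ i ∈ range (a + 1), (co F i j : ℚ) * μ (k - i) (l - j) := by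
    refine sum_subset (range_mono (by have := h.2 j; omega)) fun i _ hi ↦ ?_
    rw [mem_range] at hi
    rw [co_zero_of_lt' (by omega), Int.cast_zero, zero_mul]
  rw [sum_congr rfl fun j _ ↦ inner j]
  refine sum_subset (range_mono (by have := h.1; omega)) fun j _ hj ↦ ?_
  rw [mem_range] at hj
  refine sum_eq_zero fun i _ ↦ ?_
  rw [co_zero_of_lt (by omega), Int.cast_zero, zero_mul]

theorem act_one (F : P2) (k l : ℤ) : act F one k l = cf F k l := by
  unfold act cf one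
  split_ifs with h
  · obtain ⟨h1, h2⟩ := h
    lift k to ℕ using h1
    lift l to ℕ using h2
    simp only [Int.toNat_natCast]
    rw [sum_eq_single l, sum_eq_single k]
    · simp
    · intro i _ hi
      rw [if_neg, mul_zero]
      omega
    · intro hk
      rw [mem_range] at hk
      rw [co_zero_of_lt' (by omega), Int.cast_zero, zero_mul]
    · intro j _ hj
      refine sum_eq_zero fun i _ ↦ ?_
      rw [if_neg, mul_zero]
      omega
    · intro hl
      rw [mem_range] at hl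
      refine sum_eq_zero fun i _ ↦ ?_
      rw [co_zero_of_lt (by omega), Int.cast_zero, zero_mul]
  · refine sum_eq_zero fun j _ ↦ sum_eq_zero fun i _ ↦ ?_
    rw [if_neg, mul_zero]
    omega

theorem act_zero' (F : P2) (k l : ℤ) : act F 0 k l = 0 := by
  unfold act
  refine sum_eq_zero fun j _ ↦ sum_eq_zero fun i _ ↦ ?_
  simp

theorem act_smul (F : P2) (c : ℚ) (μ : Ser) (k l : ℤ) :
    act F (fun k l => c * μ k l) k l = c * act F μ k l := by
  unfold act
  rw [mul_sum]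
  refine sum_congr rfl fun j _ ↦ ?_
  rw [mul_sum]
  refine sum_congr rfl fun i _ ↦ ?_
  ring

/-- extension of a vector by zero -/
def ext {m b : ℕ} (v : Fin 3 × Fin (m + 1) × Fin (b + 1) → ℤ) (u : Fin 3) (i j : ℕ) : ℤ :=
  if h : i < m + 1 ∧ j < b + 1 then v (u, ⟨i, h.1⟩, ⟨j, h.2⟩) else 0

/-- the polynomial with given coefficients -/
noncomputable def poly {m b : ℕ} (v : Fin 3 × Fin (m + 1) × Fin (b + 1) → ℤ) (u : Fin 3) : P2 :=
  ∑ j ∈ range (b + 1), Polynomial.monomial j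
    (∑ i ∈ range (m + 1), Polynomial.monomial i (ext v u i j))

theorem coeff_poly {m b : ℕ} (v : Fin 3 × Fin (m + 1) × Fin (b + 1) → ℤ) (u : Fin 3) (j : ℕ) :
    (poly v u).coeff j = if j < b + 1 then
      ∑ i ∈ range (m + 1), Polynomial.monomial i (ext v u i j) else 0 := by
  unfold poly
  rw [Polynomial.finsetSum_coeff]
  simp only [Polynomial.coeff_monomial]
  rw [sum_ite_eq' (range (b + 1)) j]
  simp only [mem_range]

theorem co_poly {m b : ℕ} (v : Fin 3 × Fin (m + 1) × Fin (b + 1) → ℤ) (u : Fin 3) (i j : ℕ) :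
    co (poly v u) i j = ext v u i j := by
  unfold co
  rw [coeff_poly]
  by_cases hj : j < b + 1
  · rw [if_pos hj, Polynomial.finsetSum_coeff]
    simp only [Polynomial.coeff_monomial]
    rw [sum_ite_eq' (range (m + 1)) i]
    simp only [mem_range]
    by_cases hi : i < m + 1
    · rw [if_pos hi]
    · rw [if_neg hi]
      unfold ext
      rw [dif_neg (fun h ↦ hi h.1)]
  · rw [if_neg hj, Polynomial.coeff_zero]
    unfold ext
    rw [dif_neg (fun h ↦ hj h.2)]

theorem dl_poly {m b : ℕ} (v : Fin 3 × Fin (m + 1) × Fin (b + 1) → ℤ) (u : Fin 3) :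
    DL m b (poly v u) := by
  constructor
  · rw [Polynomial.natDegree_le_iff_coeff_eq_zero]
    intro j hj
    rw [coeff_poly, if_neg (by omega)]
  · intro j
    rw [Polynomial.natDegree_le_iff_coeff_eq_zero]
    intro i hi
    have h : co (poly v u) i j = ext v u i j := co_poly v u i j
    have h2 : ext v u i j = 0 := by
      unfold ext
      rw [dif_neg (fun h ↦ by omega)]
    rw [h2] at h
    exact h

theorem exists_sol (hS : S_SIEG) {Κ : Type} [Fintype Κ] (m b e B D : ℕ) (k l : Κ → ℤ)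
    (μ : Κ → Fin 3 → Ser) (hB : 1 ≤ B) (hD : 1 ≤ D)
    (hμ : ∀ κ u (i j : ℕ), i ≤ m → j ≤ b → ∃ n : ℤ, (D : ℚ) * μ κ u (k κ - i) (l κ - j) = n ∧ |n| ≤ B)
    (hc : Fintype.card Κ < 3 * (m + 1) * (b + 1))
    (hc' : (e + 1) * Fintype.card Κ ≤ e * (3 * (m + 1) * (b + 1))) :
    ∃ a : T3, a ≠ 0 ∧ (∀ u, DL m b (a u)) ∧
      (∀ u i j, |co (a u) i j| ≤ (((3 * (m + 1) * (b + 1) : ℕ) : ℤ) * B) ^ e) ∧
      ∀ κ, ∑ u, act (a u) (μ κ u) (k κ) (l κ) = 0 := by
  choose! N hN hNB using hμ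
  have hcard : Fintype.card (Fin 3 × Fin (m + 1) × Fin (b + 1)) = 3 * (m + 1) * (b + 1) := by
    simp only [Fintype.card_prod, Fintype.card_fin]
    ring
  obtain ⟨v, hv0, hv1, hv2⟩ := hS (Fin 3 × Fin (m + 1) × Fin (b + 1)) Κ
    (fun κ z ↦ N κ z.1 z.2.1 z.2.2) B e hB
    (fun κ z ↦ hNB κ z.1 z.2.1 z.2.2 (by have := z.2.1.2; omega) (by have := z.2.2.2; omega))
    (by rw [hcard]; exact hc) (by rw [hcard]; exact hc')
  rw [hcard] at hv2
  refine ⟨poly v, ?_, dl_poly v, ?_, ?_⟩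
  · intro h
    apply hv0
    funext z
    have h1 : co (poly v z.1) z.2.1 z.2.2 = 0 := by
      rw [h]
      simp [co]
    rw [co_poly] at h1
    unfold ext at h1
    rw [dif_pos ⟨z.2.1.2, z.2.2.2⟩] at h1
    exact h1
  · intro u i j
    rw [co_poly]
    unfold ext
    split_ifs with h
    · exact hv2 _
    · rw [abs_zero]
      positivity
  · intro κ
    have h1 : (D : ℚ) * ∑ u, act (poly v u) (μ κ u) (k κ) (l κ) = 0 := by
      have h2 : ((∑ z, N κ z.1 z.2.1 z.2.2 * v z : ℤ) : ℚ) = 0 := by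
        rw [hv1 κ, Int.cast_zero]
      rw [← h2, Int.cast_sum, Fintype.sum_prod_type, mul_sum]
      refine sum_congr rfl fun u _ ↦ ?_
      rw [act_box (dl_poly v u), mul_sum, Fintype.sum_prod_type_right, sum_range]
      refine sum_congr rfl fun j _ ↦ ?_
      rw [mul_sum, sum_range]
      refine sum_congr rfl fun i _ ↦ ?_
      have h3 := hN κ u i j (by have := i.2; omega) (by have := j.2; omega)
      rw [co_poly, Int.cast_mul, ← h3]
      unfold ext
      rw [dif_pos ⟨i.2, j.2⟩]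
      ring
    have hD' : (D : ℚ) ≠ 0 := by positivity
    exact (mul_eq_zero.1 h1).resolve_left hD'

/-- `4^N x` is an integer of absolute value at most `4^N` -/
def Ok (N : ℕ) (x : ℚ) : Prop := ∃ n : ℤ, ((4 ^ N : ℕ) : ℚ) * x = n ∧ |n| ≤ ((4 ^ N : ℕ) : ℤ)

theorem ok_zero (N : ℕ) : Ok N 0 := ⟨0, by simp, by simp⟩

theorem ok_one (N : ℕ) : Ok N 1 := ⟨((4 ^ N : ℕ) : ℤ), by simp, by simp⟩

theorem ok_unit (N : ℕ) (k l : ℤ) : Ok N (one k l) := by
  unfold one
  split_ifs
  · exact ok_one N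
  · exact ok_zero N

theorem ok_d {N : ℕ} {x : ℚ} (h : Ok N x) (d : ℤ) (hd : d = 1 ∨ d = -1) : Ok N (d * x) := by
  obtain ⟨n, h1, h2⟩ := h
  refine ⟨d * n, ?_, ?_⟩
  · rw [Int.cast_mul, ← h1]
    ring
  · rcases hd with rfl | rfl
    · simpa using h2
    · simpa using h2

theorem ok_mul (hq : S_SQR) {N u w : ℕ} (h : u + w ≤ N) : Ok N (al u * be w) := by
  obtain ⟨-, -, -, h4, -, h6, h7⟩ := hq
  obtain ⟨a, ha⟩ := h6 u
  obtain ⟨b, hb⟩ := h7 w
  obtain ⟨c, rfl⟩ := Nat.exists_eq_add_of_le h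
  have h8 : ((4 ^ (u + w + c) : ℕ) : ℚ) * (al u * be w) = ((4 ^ c * a * b : ℤ) : ℚ) := by
    push_cast
    rw [← ha, ← hb, pow_add, pow_add]
    ring
  refine ⟨4 ^ c * a * b, h8, ?_⟩
  have h9 : |((4 ^ c * a * b : ℤ) : ℚ)| ≤ ((4 ^ (u + w + c) : ℕ) : ℚ) := by
    rw [← h8, abs_mul, Nat.abs_cast, abs_mul, abs_of_nonneg (h4 w).2.1]
    have h10 : |al u| * be w ≤ 1 := mul_le_one₀ (h4 u).1 (h4 w).2.1 (h4 w).2.2
    calc ((4 ^ (u + w + c) : ℕ) : ℚ) * (|al u| * be w) ≤ ((4 ^ (u + w + c) : ℕ) : ℚ) * 1 := by gcongr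
      _ = _ := mul_one _
  rw [← Int.cast_abs] at h9
  exact_mod_cast h9

theorem ok_fq (hq : S_SQR) {N : ℕ} {k l : ℤ} (h : l ≤ N) : Ok N (fq k l) := by
  unfold fq
  split_ifs with h1
  · exact ok_mul hq (by omega)
  · exact ok_zero N

theorem ok_fp (hq : S_SQR) {N : ℕ} {k l : ℤ} (h : k ≤ N) : Ok N (fp k l) := by
  unfold fp
  split_ifs with h1
  · exact ok_mul hq (by omega)
  · exact ok_zero N

theorem ok_fi (hq : S_SQR) {N : ℕ} {k l : ℤ} (h : -k - l ≤ N) : Ok N (fi k l) := by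
  unfold fi
  split_ifs with h1
  · exact ok_mul hq (by omega)
  · exact ok_zero N

/-! ### counting -/

theorem sum_tsub (N x : ℕ) : 2 * ∑ l ∈ range N, (l - x) = (N - x) * (N - x - 1) := by
  induction N with
  | zero => simp
  | succ N ih =>
    rw [sum_range_succ, mul_add, ih]
    rcases Nat.lt_or_ge N x with h | h
    · have h1 : N - x = 0 := by omega
      have h2 : N + 1 - x = 0 := by omega
      rw [h1, h2]
    · obtain ⟨y, rfl⟩ := Nat.exists_eq_add_of_le h
      have h1 : x + y - x = y := by omega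
      have h2 : x + y + 1 - x = y + 1 := by omega
      have h3 : y + 1 - 1 = y := by omega
      rw [h1, h2, h3]
      rcases y with _ | y
      · rfl
      · have h4 : y + 1 - 1 = y := by omega
        rw [h4]
        ring

/-- the pairs of e1 and of e2 -/
noncomputable def EI (N : ℕ) (x M : ℕ) : Finset (Σ _ : ℕ, ℤ) :=
  (range N).sigma fun l ↦ Icc (min 0 ((x : ℤ) - l)) (M : ℤ)

theorem card_EI (N x M : ℕ) : (EI N x M).card = N * (M + 1) + (N - x) * (N - x - 1) / 2 := by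
  unfold EI
  rw [card_sigma]
  have h1 (l : ℕ) : (Icc (min 0 ((x : ℤ) - l)) (M : ℤ)).card = M + 1 + (l - x) := by
    rw [Int.card_Icc]
    omega
  rw [sum_congr rfl fun l _ ↦ h1 l, sum_add_distrib, sum_const, card_range, smul_eq_mul]
  have h2 := sum_tsub N x
  omega

/-- the pairs of e3 and e4 -/
def EL (s t n : ℕ) : Finset (ℕ × ℕ) :=
  ((range (n * s)) ×ˢ (range (n * t))).filter (fun z => z.1 * t + z.2 * s < n * s * t)

theorem mem_EL {s t n i j : ℕ} (h : i * t + j * s < n * s * t) :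
    (i, j) ∈ EL s t n := by
  unfold EL
  simp only [mem_filter, mem_product, mem_range]
  refine ⟨⟨?_, ?_⟩, h⟩
  · by_contra h1
    rw [not_lt] at h1
    have := Nat.mul_le_mul_right t h1
    omega
  · by_contra h1
    rw [not_lt] at h1
    have := Nat.mul_le_mul_right s h1
    have h2 : n * t * s = n * s * t := by ring
    omega

theorem final_bound (s t m b e : ℕ) (hs : 1 ≤ s) (hts : t ≤ s)
    (h : 3 * (m + 1) * (b + 1) ≤ 27 * s * t) :
    (m + 1) * (b + 1) * ((3 * (m + 1) * (b + 1)) * 4 ^ (4 * s)) ^ e ≤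
      (108 * (108 * 256) ^ e) ^ s := by
  have h1 : 27 * s * t ≤ 108 ^ s := by
    have h2 : s < 2 ^ s := Nat.lt_two_pow_self
    calc 27 * s * t ≤ 27 * s * s := by gcongr
      _ ≤ 27 * 2 ^ s * 2 ^ s := by gcongr
      _ = 27 * 4 ^ s := by
        rw [mul_assoc, ← mul_pow]
        norm_num
      _ ≤ 27 ^ s * 4 ^ s := by
        gcongr
        exact Nat.le_self_pow (by omega) 27
      _ = 108 ^ s := by
        rw [← mul_pow]
        norm_num
  have h3 : (m + 1) * (b + 1) ≤ 108 ^ s := by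
    refine le_trans ?_ (h.trans h1)
    rw [mul_assoc]
    omega
  have h4 : 3 * (m + 1) * (b + 1) * 4 ^ (4 * s) ≤ (108 * 256) ^ s := by
    calc 3 * (m + 1) * (b + 1) * 4 ^ (4 * s) ≤ 108 ^ s * 4 ^ (4 * s) := by
          gcongr
          exact h.trans h1
      _ = (108 * 256) ^ s := by
        rw [pow_mul, mul_pow]
        norm_num
  calc (m + 1) * (b + 1) * ((3 * (m + 1) * (b + 1)) * 4 ^ (4 * s)) ^ e ≤
      108 ^ s * ((108 * 256) ^ s) ^ e := by gcongr
    _ = (108 * (108 * 256) ^ e) ^ s := by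
      have h5 : ((108 * 256) ^ s) ^ e = ((108 * 256) ^ e) ^ s := by
        rw [← pow_mul, ← pow_mul, mul_comm s e]
      rw [h5, ← mul_pow]

/-- the index type of the equations -/
abbrev KK (s t m b x : ℕ) : Type :=
  (↥(EI (2 * t) x m) ⊕ ↥(EI (2 * t) t b)) ⊕
    ((↥(EL s t 2) ⊕ ↥(EL s t 1)) ⊕ (↥(range x ×ˢ range (b + 1)) ⊕ ↥(range (m + 1) ×ˢ range t)))

/-- the equations -/
def dat (s t m b x : ℕ) (d : ℤ) : KK s t m b x → ℤ × ℤ × (Fin 3 → Ser)
  | Sum.inl (Sum.inl z) => (z.1.2, (z.1.1 : ℤ), ![one, fq, 0])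
  | Sum.inl (Sum.inr z) => ((z.1.1 : ℤ), z.1.2, ![one, 0, fp])
  | Sum.inr (Sum.inl (Sum.inl z)) =>
    ((m : ℤ) - z.1.1, (b : ℤ) - z.1.2, ![0, fun k l => (d : ℚ) * fi k l, one])
  | Sum.inr (Sum.inl (Sum.inr z)) => ((m : ℤ) - z.1.1, (b : ℤ) - z.1.2, ![one, 0, 0])
  | Sum.inr (Sum.inr (Sum.inl z)) => ((z.1.1 : ℤ), (z.1.2 : ℤ), ![0, one, 0])
  | Sum.inr (Sum.inr (Sum.inr z)) => ((z.1.1 : ℤ), (z.1.2 : ℤ), ![0, 0, one])

theorem card_KK (hL : S_LAT) {s t m b x : ℕ} (hs : 1 ≤ s) (ht : 1 ≤ t) :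
    Fintype.card (KK s t m b x) ≤ Meq s t m b x := by
  simp only [Fintype.card_sum, Fintype.card_coe, card_EI, card_product, card_range]
  have h1 := hL s t 2 ht hs
  have h2 := hL s t 1 ht hs
  have h3 : (EL s t 2).card ≤ 2 * s * t + s + 2 * t := by
    unfold EL
    have h4 : 2 ^ 2 * s * t + 2 * s + 2 * 2 * t = 2 * (2 * s * t + s + 2 * t) := by ring
    omega
  have h5 : (EL s t 1).card ≤ (s * t + s + 2 * t) / 2 := by
    unfold EL
    have h6 : 1 ^ 2 * s * t + 1 * s + 2 * 1 * t = s * t + s + 2 * t := by ring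
    omega
  unfold Meq
  have h7 : (2 * t - t) * (2 * t - t - 1) = t * (t - 1) := by
    have : 2 * t - t = t := by omega
    rw [this]
  rw [h7, mul_comm (m + 1) t]
  omega

theorem ok_dat (hq : S_SQR) {s t m b x : ℕ} (hts : t ≤ s) (d : ℤ)
    (hd : d = 1 ∨ d = -1) (κ : KK s t m b x) (u : Fin 3) (i j : ℕ) (hi : i ≤ m) (hj : j ≤ b) :
    Ok (4 * s) ((dat s t m b x d κ).2.2 u ((dat s t m b x d κ).1 - i)
      ((dat s t m b x d κ).2.1 - j)) := by
  rcases κ with ((⟨⟨l, k⟩, h⟩ | ⟨⟨k, l⟩, h⟩) | ((⟨⟨k, l⟩, h⟩ | ⟨⟨k, l⟩, h⟩) | (⟨⟨k, l⟩, h⟩ | ⟨⟨k, l⟩, h⟩)))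
  · simp only [EI, mem_sigma, mem_range] at h
    fin_cases u
    · exact ok_unit _ _ _
    · exact ok_fq hq (by simp only [dat]; push_cast; omega)
    · exact ok_zero _
  · simp only [EI, mem_sigma, mem_range] at h
    fin_cases u
    · exact ok_unit _ _ _
    · exact ok_zero _
    · exact ok_fp hq (by simp only [dat]; push_cast; omega)
  · simp only [EL, mem_filter, mem_product, mem_range] at h
    fin_cases u
    · exact ok_zero _
    · exact ok_d (ok_fi hq (by simp only [dat]; push_cast; omega)) d hd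
    · exact ok_unit _ _ _
  · fin_cases u
    · exact ok_unit _ _ _
    · exact ok_zero _
    · exact ok_zero _
  · fin_cases u
    · exact ok_zero _
    · exact ok_unit _ _ _
    · exact ok_zero _
  · fin_cases u
    · exact ok_zero _
    · exact ok_zero _
    · exact ok_unit _ _ _

theorem t : S_EXI := by
  intro hS hE hC hL hQ hLen
  obtain ⟨e, he⟩ : ∃ e, e = 540 := ⟨_, rfl⟩
  refine ⟨108 * (108 * 256) ^ e, fun s t d hd ht hts ↦ ?_⟩
  obtain ⟨m, hm⟩ : ∃ m, m = 66 * s / 100 + 2 * t := ⟨_, rfl⟩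
  obtain ⟨b, hb⟩ : ∃ b, b = 232 * t / 100 := ⟨_, rfl⟩
  obtain ⟨x, hx⟩ : ∃ x, x = 2 * t - s := ⟨_, rfl⟩
  obtain ⟨hc1, hc2, hc3⟩ := hC s t m b x ht hts hm hb hx
  have hcard := card_KK (m := m) (b := b) (x := x) hL (s := s) (t := t) (by omega) (by omega)
  have hc4 : (e + 1) * Fintype.card (KK s t m b x) ≤ e * (3 * (m + 1) * (b + 1)) := by
    subst he
    omega
  obtain ⟨a, ha0, haD, haB, haE⟩ := exists_sol hS m b e (4 ^ (4 * s)) (4 ^ (4 * s))
    (fun κ ↦ (dat s t m b x d κ).1) (fun κ ↦ (dat s t m b x d κ).2.1)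
    (fun κ ↦ (dat s t m b x d κ).2.2) (Nat.one_le_pow _ _ (by omega)) (Nat.one_le_pow _ _ (by omega))
    (ok_dat hQ hts d hd) (by omega) hc4
  refine ⟨a, m * t + b * s - s * t, ha0, ?_, ?_, fun i ↦ ⟨?_, ?_⟩⟩
  · refine hE s t m b d _ a (by omega) hts rfl haD ?_ ?_ ?_ ?_ ?_ ?_
    · intro k l h1 h2 h3 h4
      lift l to ℕ using h1
      have h5 := haE (Sum.inl (Sum.inl ⟨⟨l, k⟩, by
        simp only [EI, mem_sigma, mem_range, mem_Icc]
        omega⟩))
      simp only [dat, Fin.sum_univ_three] at h5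
      simpa [act_one, act_zero'] using h5
    · intro k l h1 h2 h3 h4
      lift k to ℕ using h1
      have h5 := haE (Sum.inl (Sum.inr ⟨⟨k, l⟩, by
        simp only [EI, mem_sigma, mem_range, mem_Icc]
        omega⟩))
      simp only [dat, Fin.sum_univ_three] at h5
      simpa [act_one, act_zero'] using h5
    · intro k l h1 h2 h3
      obtain ⟨i, hi⟩ := Int.eq_ofNat_of_zero_le (sub_nonneg.2 h1)
      obtain ⟨j, hj⟩ := Int.eq_ofNat_of_zero_le (sub_nonneg.2 h2)
      rw [hi, hj] at h3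
      have h4 : i * t + j * s < 2 * s * t := by exact_mod_cast h3
      have h5 := haE (Sum.inr (Sum.inl (Sum.inl ⟨⟨i, j⟩, mem_EL h4⟩)))
      simp only [dat, Fin.sum_univ_three] at h5
      have hk : (m : ℤ) - i = k := by omega
      have hl : (b : ℤ) - j = l := by omega
      rw [hk, hl] at h5
      simp only [Matrix.cons_val_zero, Matrix.cons_val_one, Matrix.cons_val] at h5
      rw [act_zero', act_one, act_smul] at h5
      linear_combination h5
    · intro k l h1 h2 h3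
      obtain ⟨i, hi⟩ := Int.eq_ofNat_of_zero_le (sub_nonneg.2 h1)
      obtain ⟨j, hj⟩ := Int.eq_ofNat_of_zero_le (sub_nonneg.2 h2)
      rw [hi, hj] at h3
      have h4 : i * t + j * s < 1 * s * t := by
        rw [one_mul]
        exact_mod_cast h3
      have h5 := haE (Sum.inr (Sum.inl (Sum.inr ⟨⟨i, j⟩, mem_EL h4⟩)))
      simp only [dat, Fin.sum_univ_three] at h5
      have hk : (m : ℤ) - i = k := by omega
      have hl : (b : ℤ) - j = l := by omega
      rw [hk, hl] at h5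
      simp only [Matrix.cons_val_zero, Matrix.cons_val_one, Matrix.cons_val] at h5
      rw [act_zero', act_one, act_zero'] at h5
      linear_combination h5
    · intro i j h1
      by_cases hj : j ≤ b
      · have h5 := haE (Sum.inr (Sum.inr (Sum.inl ⟨⟨i, j⟩, by
          simp only [mem_product, mem_range]
          omega⟩)))
        simp only [dat, Fin.sum_univ_three] at h5
        simpa [act_one, act_zero', cf] using h5
      · exact co_zero_of_lt (by have := (haD 1).1; omega) i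
    · intro i j h1
      by_cases hi : i ≤ m
      · have h5 := haE (Sum.inr (Sum.inr (Sum.inr ⟨⟨i, j⟩, by
          simp only [mem_product, mem_range]
          omega⟩)))
        simp only [dat, Fin.sum_univ_three] at h5
        simpa [act_one, act_zero', cf] using h5
      · exact co_zero_of_lt' (by have := (haD 2).2 j; omega)
  · have h1 : 100 * (m : ℤ) ≤ 66 * s + 200 * t := by omega
    have h2 : 100 * (b : ℤ) ≤ 232 * t := by omega
    have h3 : 100 * (m : ℤ) * t ≤ (66 * s + 200 * t) * t :=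
      mul_le_mul_of_nonneg_right h1 (by positivity)
    have h4 : 100 * (b : ℤ) * s ≤ 232 * t * s := mul_le_mul_of_nonneg_right h2 (by positivity)
    nlinarith
  · exact ⟨(haD i).1.trans (by omega), fun j ↦ ((haD i).2 j).trans (by omega)⟩
  · have h1 := hLen.2.2.2.2.2.2.2.2 (a i) m b ((3 * (m + 1) * (b + 1) * 4 ^ (4 * s)) ^ e) (haD i)
      (fun i' j' ↦ (haB i i' j').trans (le_of_eq (by push_cast; ring)))
    exact h1.trans (final_bound s t m b e (by omega) hts hc3)

end Pool.Agent.Helper93.OV.EXI
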